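import Pool.Agent.TH864.SX.L2
import Pool.Agent.TH641.UM.Ones
import Pool.Agent.TH603.EL.Fin

/-! The expected dimension for equal multiplicities at 13 and at 11 general points: everything except
the emptiness in one row of degrees divisible by three. -/

namespace Pool.Agent.TH864.SX

open Finset Pool.Agent.TH176.Nag Pool.Agent.TH603.Sur Pool.Agent.TH603.Cut Pool.Agent.TH641.NW
  Pool.Agent.TH641.UM Pool.Agent.H932R3

/-- emptiness or independence in the degree `d` gives the statement with the sign -/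
theorem ED_of_or {ι : Type} [Fintype ι] {w : ι → ℕ} {d : ℕ} (h : Emp w (TZ d) ∨ Sur w (TZ d)) :
    ((d + 2).choose 2 ≤ cond w → Emp w (TZ d)) ∧ (cond w ≤ (d + 2).choose 2 → Sur w (TZ d)) := by
  classical
  rcases h with h | h
  · refine ⟨fun _ => h, fun h1 => ?_⟩
    refine Sur_of_ones (p := 0) ?_ (by simpa using h1)
    exact Emp_emb (ι := ι) (w := w) Sum.inl Sum.inl_injective (fun i => by simp) h
  · refine ⟨fun h1 => ?_, fun _ => h⟩
    have h2 := Emp_ones (p := 0) h (by simpa using h1)
    exact Emp_emb (Sum.elim id (fun x : Fin 0 => x.elim0)) (by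
      rintro (a | a) (b | b) hab
      · exact congrArg _ hab
      · exact b.elim0
      · exact a.elim0
      · exact a.elim0) (by
      rintro (a | a)
      · simp
      · exact a.elim0) h2

/-- all degrees from emptiness or independence in every degree -/
theorem expDim_of_or {n : ℕ} {w : Fin n → ℕ} (h : ∀ d, Emp w (TZ d) ∨ Sur w (TZ d)) :
    ∃ F : MvPolynomial (Fin n × Fin 2) ℚ, F ≠ 0 ∧ ∀ {L : Type} [Field L] [CharZero L]
      (P : Fin n → Fin 2 → L), MvPolynomial.aeval (fun ij : Fin n × Fin 2 => P ij.1 ij.2) F ≠ 0 →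
      ∀ d, ExpDim L w P d :=
  expDim_of_sign (fun d => (ED_of_or (h d)).1) (fun d => (ED_of_or (h d)).2)

variable {q s n : ℕ} {K : ℝ} {d m : ℕ}

/-- the remaining case: degrees divisible by three, the top row is at height `m` and one of the rows is
too short -/
def Step3 (q n : ℕ) (K : ℝ) : Prop := ∀ {m d : ℕ}, 3 ∣ d → 0 ≤ aR K d m →
  rr K * (2 * d + 3) < (n : ℝ) * (2 * m + 1) → (∃ k < m, cnt K d k < (n : ℤ) * (m - k)) →
  Emp (fun _ : Fin n => m) (Fa q K d)

theorem Num.n9 (h : Num q s n K) : 9 ≤ n := by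
  have h1 := h.hn
  have h2 : 0 < q := h.sl.hq
  nlinarith

/-- the dichotomy -/
theorem dich (h : Num q s n K) (h12 : K < 12) (h3 : Step3 q n K) (m d : ℕ) :
    Emp (fun _ : Fin n => m) (TZ d) ∨ Sur (fun _ : Fin n => m) (TZ d) := by
  rcases le_or_gt ((n : ℝ) * (2 * m + 1)) (rr K * (2 * d + 3)) with hX | hX
  · right
    exact Sur_TZ9 h.sl h12 ((Sur_Fb' h hX).mono Fb_subset)
  by_cases hd : 3 ∣ d
  · rcases lt_or_ge (aR K d m) 0 with h0 | h0
    · left
      refine Pool.Agent.TH603.EL.Emp_plane (by rw [Fintype.card_fin]; exact h.n9) ?_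
      rw [Fintype.card_fin, h.rr_sqrt]
      have h1 : (d : ℝ) < rr K * m := by
        unfold aR at h0
        by_contra hcon
        push Not at hcon
        have := mul_nonneg (show 0 ≤ K / 3 by linarith [h.K9]) (show 0 ≤ (d : ℝ) - rr K * m by linarith)
        linarith
      have h2 := mul_lt_mul_of_pos_left h1 (show 0 < rr K by linarith [h.rr3])
      rw [← mul_assoc, h.rr_sq] at h2
      simpa using h2
    · by_cases hk : ∃ k < m, cnt K d k < (n : ℤ) * (m - k)
      · left
        exact Emp_TZ9 h.sl h12 (h3 hd h0 hX hk)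
      · right
        push Not at hk
        exact Sur_TZ9 h.sl h12 ((Sur_Fb h hk).mono Fb_subset)
  · left
    refine Emp_TZ9 h.sl h12 ?_
    rw [Fa_eq hd]
    exact Emp_Fb h hX

theorem expDim_all (h : Num q s n K) (h12 : K < 12) (h3 : Step3 q n K) (m : ℕ) :
    ∃ F : MvPolynomial (Fin n × Fin 2) ℚ, F ≠ 0 ∧ ∀ {L : Type} [Field L] [CharZero L]
      (P : Fin n → Fin 2 → L), MvPolynomial.aeval (fun ij : Fin n × Fin 2 => P ij.1 ij.2) F ≠ 0 →
      ∀ d, ExpDim L (fun _ => m) P d :=
  expDim_of_or fun d => dich h h12 h3 m d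

/-- the slope for 13 points -/
noncomputable def K13 : ℝ := 3 * (3 + √13) / 2

/-- the slope for 11 points -/
noncomputable def K11 : ℝ := 3 * (3 + √11) / 2

theorem sq13 : √(13 : ℝ) * √13 = 13 := Real.mul_self_sqrt (by norm_num)
theorem sq11 : √(11 : ℝ) * √11 = 11 := Real.mul_self_sqrt (by norm_num)

theorem irr13 : Irrational K13 := by
  have h : Irrational (√(13 : ℝ)) := by
    have := Nat.Prime.irrational_sqrt (show Nat.Prime 13 by norm_num)
    exact_mod_cast this
  have e : K13 = ((9 / 2 : ℚ) : ℝ) + ((3 / 2 : ℚ) : ℝ) * √13 := by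
    unfold K13; push_cast; ring
  rw [e]
  exact (h.ratCast_mul (by norm_num)).ratCast_add _

theorem irr11 : Irrational K11 := by
  have h : Irrational (√(11 : ℝ)) := by
    have := Nat.Prime.irrational_sqrt (show Nat.Prime 11 by norm_num)
    exact_mod_cast this
  have e : K11 = ((9 / 2 : ℚ) : ℝ) + ((3 / 2 : ℚ) : ℝ) * √11 := by
    unfold K11; push_cast; ring
  rw [e]
  exact (h.ratCast_mul (by norm_num)).ratCast_add _

theorem num13 : Num 1 2 13 K13 := by
  have h1 : 3 < √(13 : ℝ) := by
    rw [Real.lt_sqrt (by norm_num)]; norm_num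
  refine ⟨⟨by norm_num, by norm_num, ?_, ?_, irr13⟩, by norm_num, by norm_num⟩
  · unfold K13; push_cast; linarith
  · unfold K13; push_cast; nlinarith [sq13]

theorem num11 : Num 2 1 11 K11 := by
  have h1 : 3 < √(11 : ℝ) := by
    rw [Real.lt_sqrt (by norm_num)]; norm_num
  refine ⟨⟨by norm_num, by norm_num, ?_, ?_, irr11⟩, by norm_num, by norm_num⟩
  · unfold K11; push_cast; linarith
  · unfold K11; push_cast; nlinarith [sq11]

theorem K13_lt : K13 < 12 := by
  have h1 : √(13 : ℝ) < 4 := by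
    rw [Real.sqrt_lt' (by norm_num)]; norm_num
  unfold K13; linarith

theorem K11_lt : K11 < 12 := by
  have h1 : √(11 : ℝ) < 4 := by
    rw [Real.sqrt_lt' (by norm_num)]; norm_num
  unfold K11; linarith

end Pool.Agent.TH864.SX
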