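import Pool.Agent.TH864.SX.Thirteen

/-! Eleven points: all degrees not divisible by three, and most of the others. -/

namespace Pool.Agent.TH864.SX

open Finset Pool.Agent.TH176.Nag Pool.Agent.TH603.Sur Pool.Agent.TH603.Cut Pool.Agent.TH641.NW
  Pool.Agent.TH641.UM Pool.Agent.H932R3

/-- one open set for all good degrees -/
theorem expDim_of_or' {n : ℕ} {w : Fin n → ℕ} {G : ℕ → Prop}
    (h : ∀ d, G d → Emp w (TZ d) ∨ Sur w (TZ d)) :
    ∃ F : MvPolynomial (Fin n × Fin 2) ℚ, F ≠ 0 ∧ ∀ {L : Type} [Field L] [CharZero L]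
      (P : Fin n → Fin 2 → L), MvPolynomial.aeval (fun ij : Fin n × Fin 2 => P ij.1 ij.2) F ≠ 0 →
      ∀ d, G d → ExpDim L w P d := by
  obtain ⟨F, hF, hF'⟩ := expDim_two (w := w) (A := fun d => G d ∧ (d + 2).choose 2 ≤ cond w)
    (B := fun d => G d ∧ cond w ≤ (d + 2).choose 2) (cond w) (fun d hd => by
      have h1 : (d + 2).choose 2 = (d + 1) * (d + 2) / 2 := by
        rw [Nat.choose_two_right]
        congr 1
        rw [mul_comm]
        rfl
      have h2 : d ≤ (d + 1) * (d + 2) / 2 := by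
        rw [Nat.le_div_iff_mul_le (by norm_num)]
        nlinarith
      have h3 := hd.2
      omega) (fun d hd => (ED_of_or (h d hd.1)).1 hd.2) (fun d hd => (ED_of_or (h d hd.1)).2 hd.2)
  refine ⟨F, hF, fun P hP d hd => hF' P hP d ?_⟩
  rcases le_total ((d + 2).choose 2) (cond w) with h1 | h1
  · exact Or.inl ⟨hd, h1⟩
  · exact Or.inr ⟨hd, h1⟩

variable {q s n : ℕ} {K : ℝ} {d m : ℕ}

/-- the dichotomy without the third step -/
theorem dich' (h : Num q s n K) (h12 : K < 12) (m d : ℕ)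
    (hG : ¬ 3 ∣ d ∨ (d : ℝ) < √(n : ℝ) * m ∨ √(n : ℝ) * (2 * m + 1) ≤ 2 * d + 3) :
    Emp (fun _ : Fin n => m) (TZ d) ∨ Sur (fun _ : Fin n => m) (TZ d) := by
  rw [h.rr_sqrt] at hG
  have hr0 : 0 < rr K := by linarith [h.rr3]
  rcases le_or_gt ((n : ℝ) * (2 * m + 1)) (rr K * (2 * d + 3)) with hX | hX
  · right
    exact Sur_TZ9 h.sl h12 ((Sur_Fb' h hX).mono Fb_subset)
  rcases hG with hG | hG | hG
  · left
    refine Emp_TZ9 h.sl h12 ?_
    rw [Fa_eq hG]
    exact Emp_Fb h hX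
  · left
    refine Pool.Agent.TH603.EL.Emp_plane (by rw [Fintype.card_fin]; exact h.n9) ?_
    rw [Fintype.card_fin, h.rr_sqrt]
    have h2 := mul_lt_mul_of_pos_left hG hr0
    rw [← mul_assoc, h.rr_sq] at h2
    simpa using h2
  · exfalso
    have h2 := mul_le_mul_of_nonneg_left hG hr0.le
    rw [← mul_assoc, h.rr_sq] at h2
    linarith

/-- **11 points**: all degrees not divisible by three; and all the others but those with
`√11 m ≤ d` and `2 d + 3 < √11 (2 m + 1)` -/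
theorem uniform11 (m : ℕ) :
    ∃ F : MvPolynomial (Fin 11 × Fin 2) ℚ, F ≠ 0 ∧ ∀ {L : Type} [Field L] [CharZero L]
      (P : Fin 11 → Fin 2 → L), MvPolynomial.aeval (fun ij : Fin 11 × Fin 2 => P ij.1 ij.2) F ≠ 0 →
      ∀ d : ℕ, (¬ 3 ∣ d ∨ (d : ℝ) < √11 * m ∨ √11 * (2 * m + 1) ≤ 2 * d + 3) →
        ExpDim L (fun _ => m) P d :=
  expDim_of_or' fun d hd => dich' num11 K11_lt m d (by push_cast; exact hd)

end Pool.Agent.TH864.SX
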