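import Pool.Agent.TH641.NW.Inst
import Pool.Agent.TH603.Cut.FlatE

/-! The first flattening in the exact case: a block whose columns have exactly `q t` points. -/

namespace Pool.Agent.TH864.SX

open Finset Pool.Agent.TH176.Nag Pool.Agent.TH603.Sur Pool.Agent.TH603.Cut Pool.Agent.TH641.NW

/-- the flattened block without the apex point -/
def Fb (q : ℕ) (K : ℝ) (d : ℕ) : Set (ℤ × ℤ) :=
  {p | 1 ≤ p.1 ∧ 0 ≤ p.2 ∧ p.2 < q * p.1 ∧ (p.1 : ℝ) + K * p.2 ≤ K * d / 3}

/-- the flattened block with the apex point -/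
def Fa (q : ℕ) (K : ℝ) (d : ℕ) : Set (ℤ × ℤ) :=
  {p | p ∈ Fb q K d ∨ (3 ∣ d ∧ p = (0, 0))}

/-- the block -/
def Blk (M : ℕ) (K : ℝ) (d : ℕ) : Set (ℤ × ℤ) :=
  {p | 0 ≤ p.2 ∧ (K - M) * ((d : ℝ) / 3 - p.2) ≤ p.1 ∧ (p.1 : ℝ) ≤ K * ((d : ℝ) / 3 - p.2)}

/-- the hypotheses on the slopes -/
structure Slp (M q : ℕ) (K : ℝ) : Prop where
  hM : 0 < M
  hq : 0 < q
  hMK : (M : ℝ) < K
  eq : (q : ℝ) * (K * (K - M)) = M
  irr : Irrational K

variable {M q : ℕ} {K : ℝ} {d : ℕ}

theorem Slp.K0 (h : Slp M q K) : 0 < K := by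
  have h1 := h.hMK
  have h2 : (0 : ℝ) < M := by exact_mod_cast h.hM
  linarith

/-- lower end of a column -/
theorem Slp.low (h : Slp M q K) {x t : ℝ} : (K - M) * x ≤ t ↔ x ≤ q * K * t / M := by
  have hM : (0 : ℝ) < M := by exact_mod_cast h.hM
  have hK := h.K0
  have hKM : 0 < K - M := by linarith [h.hMK]
  have hq : (0 : ℝ) < q := by exact_mod_cast h.hq
  rw [le_div_iff₀ hM]
  have e := h.eq
  have hqK : 0 < q * K := mul_pos hq hK
  constructor
  · intro h1
    have h2 := mul_le_mul_of_nonneg_left h1 hqK.le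
    have e2 : q * K * ((K - M) * x) = x * M := by linear_combination x * e
    linarith
  · intro h1
    have e2 : q * K * ((K - M) * x) = x * M := by linear_combination x * e
    have h2 : q * K * ((K - M) * x) ≤ q * K * t := by rw [e2]; exact h1
    exact le_of_mul_le_mul_left h2 hqK

/-- upper end of a column -/
theorem Slp.up (h : Slp M q K) {x t : ℝ} : t ≤ K * x ↔ q * K * t / M - q * t ≤ x := by
  have hM : (0 : ℝ) < M := by exact_mod_cast h.hM
  have hK := h.K0
  have hKM : 0 < K - M := by linarith [h.hMK]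
  have hq : (0 : ℝ) < q := by exact_mod_cast h.hq
  have e := h.eq
  have e2 : K * (q * K * t / M - q * t) = t := by
    have e3 : K * (q * K * t / M - q * t) = (q * (K * (K - M))) * t / M := by
      field_simp
    rw [e3, e]
    field_simp
  constructor
  · intro h1
    rw [← e2] at h1
    exact le_of_mul_le_mul_left h1 hK
  · intro h1
    have h2 := mul_le_mul_of_nonneg_left h1 hK.le
    rw [e2] at h2
    exact h2

/-- the end of a column is not an integer -/
theorem Slp.ne (h : Slp M q K) {t z : ℤ} (ht : t ≠ 0) : (d : ℝ) / 3 - q * K * t / M ≠ z := by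
  intro h1
  have hM : (0 : ℝ) < M := by exact_mod_cast h.hM
  have hq : (0 : ℝ) < q := by exact_mod_cast h.hq
  have ht' : (t : ℝ) ≠ 0 := by exact_mod_cast ht
  apply h.irr
  refine ⟨((d : ℚ) / 3 - z) * M / (q * t), ?_⟩
  push_cast
  rw [← h1]
  field_simp
  ring

theorem Emp_blk {ι : Type} {w : ι → ℕ} (h : Slp M q K) (hE : Emp w (Fa q K d)) :
    Emp w (Blk M K d) := by
  have hM : (0 : ℝ) < M := by exact_mod_cast h.hM
  have hK := h.K0
  have hq : (0 : ℝ) < q := by exact_mod_cast h.hq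
  refine Emp_flat (S' := Fa q K d) 1 0 1 0 (by norm_num) ?_ hE
  rintro ⟨t, j⟩ T k ⟨g1, g2, -⟩ ⟨-, -, g3⟩ hk
  simp only at g1 g2 g3
  have e : ((1 * t + 0 * j, (k : ℤ)) : ℤ × ℤ) = (t, (k : ℤ)) := by simp
  simp only
  rw [e]
  have hkR : (k : ℝ) ≤ T := by exact_mod_cast hk
  have hk0 : (0 : ℝ) ≤ k := Nat.cast_nonneg k
  have hj0 : (0 : ℝ) ≤ j := by exact_mod_cast g1
  push_cast at g2 g3
  simp only [zero_mul, sub_zero, one_mul] at g2 g3
  have g2' := h.low.1 g2
  have g3' := h.up.1 g3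
  -- `d / 3 - j ≤ q K t / M`, `q K t / M - q t ≤ d / 3 - (j + T)`
  have hT : (T : ℝ) ≤ q * t := by linarith
  rcases lt_trichotomy t 0 with ht | ht | ht
  · exfalso
    have ht' : (t : ℝ) < 0 := by exact_mod_cast ht
    have : (q : ℝ) * t < 0 := mul_neg_of_pos_of_neg hq ht'
    linarith
  · subst ht
    simp only [Int.cast_zero, mul_zero, zero_div, sub_zero] at g2' g3' hT
    have hk1 : k = 0 := by
      have : (k : ℝ) ≤ 0 := by linarith
      exact_mod_cast (le_antisymm this hk0)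
    subst hk1
    right
    refine ⟨?_, by simp⟩
    have hT0 : (T : ℝ) = 0 := by
      apply le_antisymm hT
      simpa using hkR
    have h5 : (d : ℝ) = 3 * j := by
      rw [hT0] at g3'
      linarith
    have h6 : (d : ℤ) = 3 * j := by exact_mod_cast h5
    have h7 : (3 : ℤ) ∣ d := ⟨j, h6⟩
    exact_mod_cast h7
  · left
    refine ⟨by simp only; omega, by simp, ?_, ?_⟩
    · simp only
      have h5 : (k : ℝ) ≤ q * t := by linarith
      have h6 : (k : ℤ) ≤ q * t := by exact_mod_cast h5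
      rcases h6.lt_or_eq with h7 | h7
      · exact h7
      · exfalso
        have h8 : (k : ℝ) = q * t := by exact_mod_cast h7
        refine h.ne (d := d) (t := t) (z := j) (by omega) ?_
        linarith
    · simp only
      have h5 : (t : ℝ) ≤ K * ((d : ℝ) / 3 - (j + T)) := g3
      have h6 : K * (k : ℝ) ≤ K * (j + T) := mul_le_mul_of_nonneg_left (by linarith) hK.le
      push_cast
      linarith

theorem Sur_blk {ι : Type} [Fintype ι] {w : ι → ℕ} (h : Slp M q K) (hS : Sur w (Fa q K d)) :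
    Sur w (Blk M K d) := by
  have hM : (0 : ℝ) < M := by exact_mod_cast h.hM
  have hK := h.K0
  have hq : (0 : ℝ) < q := by exact_mod_cast h.hq
  refine Sur_flat (S' := Fa q K d) 1 0 1 0 (by norm_num) ?_ hS
  rintro ⟨t, k⟩ hp
  -- enough: an interval of `j`
  have main : 0 ≤ k ∧ ∃ s0 : ℤ, ∀ s : ℤ, s0 ≤ s → s ≤ s0 + k → ((t, s) : ℤ × ℤ) ∈ Blk M K d := by
    rcases hp with ⟨g1, g2, g3, g4⟩ | ⟨g1, g2⟩
    · simp only at g1 g2 g3 g4
      refine ⟨g2, ?_⟩
      obtain ⟨x, hx⟩ : ∃ x : ℝ, x = (d : ℝ) / 3 - q * K * t / M := ⟨_, rfl⟩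
      refine ⟨max 0 ⌈x⌉, fun s hs1 hs2 => ⟨?_, ?_, ?_⟩⟩
      · simp only
        exact (le_max_left _ _).trans hs1
      · simp only
        rw [h.low]
        have h5 : (⌈x⌉ : ℝ) ≤ s := by exact_mod_cast (le_max_right _ _).trans hs1
        have h6 := Int.le_ceil x
        linarith
      · simp only
        rcases le_total ⌈x⌉ 0 with h5 | h5
        · rw [max_eq_left h5] at hs2
          have h6 : (s : ℝ) ≤ k := by
            have : s ≤ k := by omega
            exact_mod_cast this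
          have h7 : K * (s : ℝ) ≤ K * k := mul_le_mul_of_nonneg_left h6 hK.le
          linarith
        · rw [max_eq_right h5] at hs2
          rw [h.up]
          have h6 : (s : ℝ) + 1 ≤ ⌈x⌉ + q * t := by
            have h8 : s + 1 ≤ ⌈x⌉ + q * t := by omega
            exact_mod_cast h8
          have h7 := Int.ceil_lt_add_one x
          linarith
    · obtain ⟨rfl, rfl⟩ : t = 0 ∧ k = 0 := by
        simpa using g2
      obtain ⟨c, hc⟩ := g1
      refine ⟨le_rfl, (c : ℤ), fun s hs1 hs2 => ?_⟩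
      have hs : s = c := by omega
      subst hs
      have hcR : (d : ℝ) = 3 * c := by exact_mod_cast hc
      refine ⟨by simp, ?_, ?_⟩
      · simp only
        rw [hcR]
        push_cast
        ring_nf
        exact le_rfl
      · simp only
        rw [hcR]
        push_cast
        ring_nf
        exact le_rfl
  obtain ⟨h1, s0, h2⟩ := main
  refine ⟨h1, s0, fun s hs1 hs2 => ?_⟩
  have := h2 s hs1 hs2
  have e : ((1 * t - 0 * s, 0 * t + 1 * s) : ℤ × ℤ) = (t, s) := by simp
  simp only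
  rw [e]
  exact this

/-- from the block to the triangle of slope `τ` -/
theorem blk_reg {t j : ℤ} : ((t, j) : ℤ × ℤ) ∈ Blk 9 K d ↔ ((2 * d - t - 6 * j, j) : ℤ × ℤ) ∈
    Reg (-((d : ℝ) * (1 + (K / 3 - 3)))) (d * (2 - (K / 3 - 3))) (3 * (1 + (K / 3 - 3)))
      (3 * (2 - (K / 3 - 3))) := by
  constructor
  · rintro ⟨h1, h2, h3⟩
    simp only at h1 h2 h3
    push_cast at h2
    refine ⟨h1, ?_, ?_⟩
    · simp only; push_cast; linarith
    · simp only; push_cast; linarith
  · rintro ⟨h1, h2, h3⟩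
    simp only at h1 h2 h3
    push_cast at h2 h3
    refine ⟨h1, ?_, ?_⟩
    · simp only; push_cast; linarith
    · simp only; push_cast; linarith

theorem Emp_TZ9 {ι : Type} {w : ι → ℕ} (h : Slp 9 q K) (h12 : K < 12) (hE : Emp w (Fa q K d)) :
    Emp w (TZ d) := by
  have hK9 : (9 : ℝ) < K := by have := h.hMK; push_cast at this; exact this
  refine keyE ι w d (K / 3 - 3) (by linarith) (by linarith) ?_
  refine (Emp_blk h hE).comap (-1) (-6) 0 1 (2 * d) 0 (by norm_num) ?_
  rintro ⟨i, j⟩ hp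
  simp only
  have e : ((-1 * i + -6 * j + 2 * (d : ℤ), 0 * i + 1 * j + 0) : ℤ × ℤ) =
      (2 * (d : ℤ) - i - 6 * j, j) := by
    ext
    · simp only; ring
    · simp only; ring
  rw [e, blk_reg]
  have e2 : ((2 * (d : ℤ) - (2 * (d : ℤ) - i - 6 * j) - 6 * j, j) : ℤ × ℤ) = (i, j) := by
    ext
    · simp only; ring
    · rfl
  rw [e2]
  exact hp

theorem Sur_TZ9 {ι : Type} [Fintype ι] {w : ι → ℕ} (h : Slp 9 q K) (h12 : K < 12)
    (hS : Sur w (Fa q K d)) : Sur w (TZ d) := by
  have hK9 : (9 : ℝ) < K := by have := h.hMK; push_cast at this; exact this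
  refine keyS ι w d (K / 3 - 3) (by linarith) (by linarith) ?_ ?_
  · have := (h.irr.div_natCast (m := 3) (by norm_num)).sub_natCast 3
    simpa using this
  refine (Sur_blk h hS).comap (-1) (-6) 0 1 (2 * d) 0 (by norm_num) ?_
  rintro ⟨t, j⟩ hp
  refine ⟨(2 * (d : ℤ) - t - 6 * j, j), blk_reg.1 hp, ?_⟩
  ext
  · simp only; ring
  · simp only; ring

end Pool.Agent.TH864.SX
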