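import Pool.Agent.TH864.SX.L1
import Pool.Agent.TH603.Sur.Rows

/-! The second flattening: the exact rows. -/

namespace Pool.Agent.TH864.SX

open Finset Pool.Agent.TH176.Nag Pool.Agent.TH603.Sur Pool.Agent.TH603.Cut Pool.Agent.TH641.NW

/-- emptiness from the number of points of the rows -/
theorem Emp_of_rows {ι : Type} [Fintype ι] {w : ι → ℕ} {S : Set (ℤ × ℤ)} (hpos : ∀ p ∈ S, 0 ≤ p.2)
    (hcard : ∀ (j : ℕ) (B : Finset ℤ), (∀ c ∈ B, ((c, (j : ℤ)) : ℤ × ℤ) ∈ S) →
      B.card ≤ ∑ i, (w i - j)) : Emp w S := by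
  classical
  have hC' : Emp w {p : ℤ × ℤ | 0 ≤ p.1 ∧ 0 ≤ p.2 ∧ p.2 < ((∑ i, (w i - p.1.toNat) : ℕ) : ℤ)} := by
    refine (Emp_rows w 0).comap 0 1 1 0 0 0 (by norm_num) ?_
    rintro ⟨a, b⟩ ⟨g1, g2, g3⟩
    simp only at g1 g2 g3
    have e : ((0 * a + 1 * b + 0, 1 * a + 0 * b + 0) : ℤ × ℤ) = (b, a) := by
      ext <;> simp
    simp only
    rw [e]
    exact ⟨g1, g2, by simpa using g3⟩
  have hD : Emp w {p : ℤ × ℤ | ((p.2, p.1) : ℤ × ℤ) ∈ S} := by
    refine Emp_flat0 ?_ hC'
    intro j B hBm k hk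
    have hj : 0 ≤ j := by
      obtain ⟨b, hb⟩ := card_pos.1 (show 0 < B.card by omega)
      exact hpos _ (hBm b hb)
    obtain ⟨j', rfl⟩ := Int.eq_ofNat_of_zero_le hj
    have h5 := hcard j' B hBm
    refine ⟨by simp, by simp, ?_⟩
    simp only [Int.toNat_natCast]
    exact_mod_cast lt_of_lt_of_le hk h5
  refine hD.comap 0 1 1 0 0 0 (by norm_num) ?_
  rintro ⟨a, b⟩ hab
  simpa using hab

/-- the square root of the number of points -/
noncomputable def rr (K : ℝ) : ℝ := 2 * K / 3 - 3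

/-- the right part of the row `g` -/
noncomputable def aR (K : ℝ) (d : ℕ) (g : ℝ) : ℝ := K / 3 * (d - rr K * g)

/-- the left part of the row `g` -/
noncomputable def bR (K : ℝ) (d : ℕ) (g : ℝ) : ℝ := (K / 3 - 3) * (d - rr K * (g + 1))

/-- the number of points of the row `g` -/
noncomputable def cnt (K : ℝ) (d g : ℕ) : ℤ := ⌊aR K d g⌋ + ⌊bR K d g⌋ + 1

/-- the hypotheses on the numbers -/
structure Num (q s n : ℕ) (K : ℝ) : Prop where
  sl : Slp 9 q K
  hs : s * q = 2
  hn : q * n = 9 * q + 4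

variable {q s n : ℕ} {K : ℝ} {d m : ℕ}

theorem Num.K9 (h : Num q s n K) : 9 < K := by
  have := h.sl.hMK; push_cast at this; exact this

theorem Num.eq (h : Num q s n K) : (q : ℝ) * (K * (K - 9)) = 9 := by
  have := h.sl.eq; push_cast at this; exact this

theorem Num.q0 (h : Num q s n K) : (0 : ℝ) < q := by exact_mod_cast h.sl.hq

theorem Num.rr3 (h : Num q s n K) : 3 < rr K := by
  unfold rr; linarith [h.K9]

theorem Num.rr_sq (h : Num q s n K) : rr K * rr K = n := by
  have h1 : (q : ℝ) * n = 9 * q + 4 := by exact_mod_cast h.hn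
  have h2 : (q : ℝ) * (rr K * rr K) = q * n := by
    rw [h1]
    unfold rr
    linear_combination (4 / 9) * h.eq
  exact mul_left_cancel₀ h.q0.ne' h2

theorem Num.rr_sqrt (h : Num q s n K) : √(n : ℝ) = rr K := by
  rw [← h.rr_sq]
  exact Real.sqrt_mul_self (by linarith [h.rr3])

theorem Num.sR (h : Num q s n K) : (s : ℝ) * q = 2 := by exact_mod_cast h.hs

/-- the slope of the rows -/
theorem Num.sK (h : Num q s n K) : (s : ℝ) + K = K * rr K / 3 := by
  have h2 : (q : ℝ) * (s + K) = q * (K * rr K / 3) := by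
    unfold rr
    linear_combination h.sR - (2 / 9) * h.eq
  exact mul_left_cancel₀ h.q0.ne' h2

theorem Num.qK (h : Num q s n K) : ((q : ℝ) * K + 1) * (K / 3 - 3) = K / 3 := by
  linear_combination (1 / 3) * h.eq

theorem Num.sum (h : Num q s n K) (g : ℝ) : aR K d g + bR K d g =
    n * (m - g) + (rr K * (2 * d + 3) - n * (2 * m + 1)) / 2 := by
  rw [← h.rr_sq]
  unfold aR bR rr
  ring

theorem Num.cnt_ge (h : Num q s n K) (hX : (n : ℝ) * (2 * m + 1) ≤ rr K * (2 * d + 3)) (g : ℕ) :
    (n : ℤ) * (m - g) ≤ cnt K d g := by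
  have h1 := h.sum (d := d) (m := m) (g : ℝ)
  have h2 := Int.lt_floor_add_one (aR K d g)
  have h3 := Int.lt_floor_add_one (bR K d g)
  have h4 : ((n : ℤ) * (m - g) : ℤ) < cnt K d g + 1 := by
    have : (((n : ℤ) * (m - g) : ℤ) : ℝ) < ((cnt K d g + 1 : ℤ) : ℝ) := by
      unfold cnt
      push_cast
      linarith
    exact_mod_cast this
  omega

theorem Num.cnt_le (h : Num q s n K) (hX : rr K * (2 * d + 3) < (n : ℝ) * (2 * m + 1)) (g : ℕ) :
    cnt K d g ≤ (n : ℤ) * (m - g) := by
  have h1 := h.sum (d := d) (m := m) (g : ℝ)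
  have h2 := Int.floor_le (aR K d g)
  have h3 := Int.floor_le (bR K d g)
  have h4 : cnt K d g < ((n : ℤ) * (m - g) : ℤ) + 1 := by
    have : ((cnt K d g : ℤ) : ℝ) < (((n : ℤ) * (m - g) + 1 : ℤ) : ℝ) := by
      unfold cnt
      push_cast
      linarith
    exact_mod_cast this
  omega

/-- the rows of the flattened set -/
def S2 (K : ℝ) (d : ℕ) : Set (ℤ × ℤ) :=
  {p | 0 ≤ p.2 ∧ ((1 ≤ p.1 ∧ (p.1 : ℝ) ≤ aR K d p.2) ∨ (p.1 ≤ 0 ∧ -(p.1 : ℝ) ≤ bR K d p.2))}

/-- the flattening, emptiness -/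
theorem Emp_S2 {ι : Type} {w : ι → ℕ} (h : Num q s n K) (hE : Emp w (S2 K d)) :
    Emp w (Fb q K d) := by
  have hK9 := h.K9
  have hK : 0 < K := by linarith
  have hr := h.rr3
  refine Emp_flat (S' := S2 K d) 1 (-(s : ℤ)) 1 0 (by norm_num) ?_ hE
  rintro ⟨t, k⟩ T g ⟨g1, g2, g3, -⟩ ⟨-, -, -, g4⟩ hg
  simp only at g1 g2 g3 g4
  push_cast at g4
  have hgR : (g : ℝ) ≤ T := by exact_mod_cast hg
  have hkR : (0 : ℝ) ≤ k := by exact_mod_cast g2
  obtain ⟨c, hc⟩ : ∃ c : ℤ, c = t - s * k := ⟨_, rfl⟩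
  have hcR : (c : ℝ) = t - s * k := by rw [hc]; push_cast; ring
  have e : ((1 * t + -(s : ℤ) * k, (g : ℤ)) : ℤ × ℤ) = (c, (g : ℤ)) := by
    rw [hc]; ext
    · simp only; ring
    · rfl
  simp only
  rw [e]
  have g4' : (c : ℝ) + K * rr K / 3 * (k + T) ≤ K * d / 3 := by
    rw [← h.sK, hcR]; linarith
  have hKr : 0 < K * rr K / 3 := by positivity
  refine ⟨by simp, ?_⟩
  rcases le_or_gt 1 c with hc1 | hc1
  · left
    refine ⟨hc1, ?_⟩
    simp only [Int.cast_natCast]
    have h5 : K * rr K / 3 * g ≤ K * rr K / 3 * (k + T) :=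
      mul_le_mul_of_nonneg_left (by linarith) hKr.le
    unfold aR
    linarith
  · right
    refine ⟨by simp only; omega, ?_⟩
    simp only [Int.cast_natCast]
    have h6 : (k : ℝ) < q * t := by exact_mod_cast g3
    have h7 : q * (c : ℝ) + 2 * k = q * t := by
      rw [hcR]; linear_combination (-(k : ℝ)) * h.sR
    have h8 : (1 : ℤ) - q * c ≤ k := by
      have h9 : (0 : ℝ) < q * c + k := by linarith
      have h10 : (0 : ℤ) < q * c + k := by exact_mod_cast h9
      omega
    have h8' : (1 : ℝ) - q * c ≤ k := by exact_mod_cast h8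
    have h11 : K * rr K / 3 * (1 - q * c + g) ≤ K * rr K / 3 * (k + T) :=
      mul_le_mul_of_nonneg_left (by linarith) hKr.le
    have h12 : ((q : ℝ) * K + 1) * (-(c : ℝ)) ≤ ((q : ℝ) * K + 1) * bR K d g := by
      have e1 : ((q : ℝ) * K + 1) * bR K d g = K / 3 * (d - rr K * (g + 1)) := by
        unfold bR; rw [← mul_assoc, h.qK]
      rw [e1]
      have e2 : K * rr K / 3 * (1 - q * c + g) = K * rr K / 3 * (g + 1) - q * (K * rr K / 3) * c := by
        ring
      have e3 : (q : ℝ) * (K * rr K / 3) = q * K + 2 := by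
        rw [← h.sK]; linear_combination h.sR
      rw [e2, e3] at h11
      linarith
    have h13 : 0 < (q : ℝ) * K + 1 := by
      have := mul_pos h.q0 hK; linarith
    exact le_of_mul_le_mul_left h12 h13

/-- the flattening and sorting, independence -/
theorem Sur_Fb (h : Num q s n K) (hr : ∀ g < m, (n : ℤ) * (m - g) ≤ cnt K d g) :
    Sur (fun _ : Fin n => m) (Fb q K d) := by
  have hK9 := h.K9
  have hK : 0 < K := by linarith
  have hr3 := h.rr3
  have hq0 := h.q0
  have hq1 : 1 ≤ q := h.sl.hq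
  refine Sur_slabs (S' := {p : ℤ × ℤ | 0 ≤ p.2 ∧ 0 ≤ p.1 ∧ p.1 < (n : ℤ) * (m - p.2)}) 1 (-(s : ℤ)) 1 0
    (by norm_num) ?_ ?_
  · rintro ⟨p, g⟩ ⟨g1, g2, g3⟩
    simp only at g1 g2 g3
    refine ⟨g2, g1, ?_⟩
    simp only
    obtain ⟨g, rfl⟩ := Int.eq_ofNat_of_zero_le g1
    have hgm : g < m := by
      by_contra hcon
      have h1 : (m : ℤ) - g ≤ 0 := by omega
      have h2 : (n : ℤ) * (m - g) ≤ 0 := mul_nonpos_of_nonneg_of_nonpos (by positivity) h1
      omega
    have hcnt := hr g hgm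
    have hp : p < cnt K d g := lt_of_lt_of_le g3 hcnt
    obtain ⟨B, hB1, hB2⟩ : ∃ B : Finset ℤ, cnt K d g ≤ B.card ∧ ∀ c ∈ B,
        (1 ≤ c ∧ (c : ℝ) ≤ aR K d g) ∨ (c ≤ 0 ∧ -(c : ℝ) ≤ bR K d g) := by
      rcases lt_or_ge (bR K d g) 0 with hb | hb
      · refine ⟨Icc 1 ⌊aR K d g⌋, ?_, ?_⟩
        · rw [Int.card_Icc]
          have : ⌊bR K d g⌋ < 0 := Int.floor_lt.2 (by simpa using hb)
          unfold cnt
          omega
        · intro c hc
          rw [mem_Icc] at hc
          left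
          exact ⟨hc.1, Int.le_floor.1 hc.2⟩
      · refine ⟨Icc (-⌊bR K d g⌋) ⌊aR K d g⌋, ?_, ?_⟩
        · rw [Int.card_Icc]
          unfold cnt
          omega
        · intro c hc
          rw [mem_Icc] at hc
          rcases le_or_gt 1 c with h1 | h1
          · left
            exact ⟨h1, Int.le_floor.1 hc.2⟩
          · right
            refine ⟨by omega, ?_⟩
            have h2 : -c ≤ ⌊bR K d g⌋ := by omega
            have h3 := Int.le_floor.1 h2
            push_cast at h3
            exact h3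
    refine ⟨B, lt_of_lt_of_le hp hB1, ?_⟩
    intro c hcB
    have hKr : 0 < K * rr K / 3 := by positivity
    rcases hB2 c hcB with ⟨h1, h2⟩ | ⟨h1, h2⟩
    · refine ⟨0, fun σ hσ1 hσ2 => ?_⟩
      have e : ((1 * c - -(s : ℤ) * σ, 0 * c + 1 * σ) : ℤ × ℤ) = (c + s * σ, σ) := by
        ext
        · simp only; ring
        · simp only; ring
      rw [e]
      have hsσ : 0 ≤ (s : ℤ) * σ := mul_nonneg (by positivity) hσ1
      have hσg : (σ : ℝ) ≤ g := by
        have : σ ≤ (g : ℤ) := by omega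
        exact_mod_cast this
      refine ⟨by simp only; omega, hσ1, ?_, ?_⟩
      · simp only
        have h3 : (q : ℤ) * (c + s * σ) = q * c + 2 * σ := by
          have : (s : ℤ) * q = 2 := by exact_mod_cast h.hs
          linear_combination σ * this
        rw [h3]
        have h4 : 0 < (q : ℤ) * c := mul_pos (by exact_mod_cast h.sl.hq) (by omega)
        omega
      · simp only
        push_cast
        have h3 : K * rr K / 3 * (σ : ℝ) ≤ K * rr K / 3 * g := mul_le_mul_of_nonneg_left hσg hKr.le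
        unfold aR at h2
        have h4 : (s : ℝ) * σ + K * σ = K * rr K / 3 * σ := by rw [← h.sK]; ring
        linarith
    · refine ⟨1 - q * c, fun σ hσ1 hσ2 => ?_⟩
      have e : ((1 * c - -(s : ℤ) * σ, 0 * c + 1 * σ) : ℤ × ℤ) = (c + s * σ, σ) := by
        ext
        · simp only; ring
        · simp only; ring
      rw [e]
      have hsq : (s : ℤ) * q = 2 := by exact_mod_cast h.hs
      have hqc : (q : ℤ) * c ≤ 0 := mul_nonpos_of_nonneg_of_nonpos (by positivity) h1
      have hs0 : 0 < s := by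
        rcases Nat.eq_zero_or_pos s with h0 | h0
        · rw [h0] at hsq; simp at hsq
        · exact h0
      have hsσ : (s : ℤ) * (1 - q * c) ≤ s * σ := mul_le_mul_of_nonneg_left hσ1 (by positivity)
      have e4 : (s : ℤ) * (1 - q * c) = s - 2 * c := by linear_combination (-c) * hsq
      rw [e4] at hsσ
      have hσR : (σ : ℝ) ≤ 1 - q * c + g := by
        have : σ ≤ 1 - q * c + (g : ℤ) := by omega
        exact_mod_cast this
      refine ⟨by simp only; omega, by simp only; omega, ?_, ?_⟩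
      · simp only
        have h3 : (q : ℤ) * (c + s * σ) = q * c + 2 * σ := by
          linear_combination σ * hsq
        rw [h3]
        omega
      · simp only
        push_cast
        have h3 : K * rr K / 3 * (σ : ℝ) ≤ K * rr K / 3 * (1 - q * c + g) :=
          mul_le_mul_of_nonneg_left hσR hKr.le
        have h4 : (s : ℝ) * σ + K * σ = K * rr K / 3 * σ := by rw [← h.sK]; ring
        have h13 : 0 < (q : ℝ) * K + 1 := by
          have := mul_pos h.q0 hK; linarith
        have h12 := mul_le_mul_of_nonneg_left h2 h13.le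
        have e1 : ((q : ℝ) * K + 1) * bR K d g = K / 3 * (d - rr K * (g + 1)) := by
          unfold bR; rw [← mul_assoc, h.qK]
        rw [e1] at h12
        have e2 : K * rr K / 3 * (1 - q * c + g) = K * rr K / 3 * (g + 1) - q * (K * rr K / 3) * c := by
          ring
        have e3 : (q : ℝ) * (K * rr K / 3) = q * K + 2 := by
          rw [← h.sK]; linear_combination h.sR
        rw [e2, e3] at h3
        linarith
  · refine Sur_rows _ 0 ?_
    intro k j hj
    simp only [sum_const, card_univ, Fintype.card_fin, smul_eq_mul] at hj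
    refine ⟨by simp, by simp, ?_⟩
    simp only
    have hkm : k ≤ m := by
      by_contra hcon
      have : m - k = 0 := by omega
      rw [this] at hj
      simp at hj
    have e : ((m - k : ℕ) : ℤ) = m - k := by omega
    rw [← e]
    have : (j : ℤ) < (n * (m - k) : ℕ) := by exact_mod_cast hj
    push_cast at this ⊢
    omega

/-- the rows of the flattened set -/
theorem card_S2 (h : Num q s n K) (g : ℕ) (B : Finset ℤ) (hB : ∀ c ∈ B, ((c, (g : ℤ)) : ℤ × ℤ) ∈ S2 K d) :
    B.card = 0 ∨ (B.card : ℤ) ≤ cnt K d g := by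
  have hK9 := h.K9
  have hK : 0 < K := by linarith
  have hr3 := h.rr3
  have hq1 : (1 : ℝ) ≤ q := by exact_mod_cast h.sl.hq
  rcases Nat.eq_zero_or_pos B.card with h0 | h0
  · exact Or.inl h0
  right
  obtain ⟨c0, hc0⟩ := card_pos.1 h0
  -- `1 ≤ a`
  have ha : 1 ≤ aR K d g := by
    obtain ⟨-, h1 | h1⟩ := hB c0 hc0
    · obtain ⟨h2, h3⟩ := h1
      simp only [Int.cast_natCast] at h2 h3
      have : (1 : ℝ) ≤ c0 := by exact_mod_cast h2
      linarith
    · obtain ⟨h2, h3⟩ := h1
      simp only [Int.cast_natCast] at h2 h3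
      have h4 : (c0 : ℝ) ≤ 0 := by exact_mod_cast h2
      have h5 : 0 ≤ bR K d g := by linarith
      unfold bR at h5
      have h6 : 0 ≤ (d : ℝ) - rr K * (g + 1) := by
        by_contra hcon
        push Not at hcon
        have := mul_neg_of_pos_of_neg (show 0 < K / 3 - 3 by linarith) hcon
        linarith
      unfold aR
      have h7 : rr K ≤ d - rr K * g := by linarith
      have h8 : K / 3 * rr K ≤ K / 3 * (d - rr K * g) := mul_le_mul_of_nonneg_left h7 (by linarith)
      nlinarith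
  have hb : -1 ≤ bR K d g := by
    have h5 : 0 ≤ (q : ℝ) * K * (K * (bR K d g + 1)) := by
      have e : (q : ℝ) * K * (K * (bR K d g + 1)) = 9 * aR K d g - 2 * K ^ 2 + 9 * K + q * K ^ 2 := by
        unfold bR aR rr
        linear_combination (K / 3 * (d - (2 * K / 3 - 3) * (g + 1))) * h.eq
      rw [e]
      rcases eq_or_lt_of_le hq1 with h6 | h6
      · have h7 := h.eq
        rw [← h6] at h7 ⊢
        nlinarith
      · have h7 : (2 : ℝ) ≤ q := by
          have : 1 < q := by exact_mod_cast h6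
          exact_mod_cast this
        nlinarith
    have h6 : 0 < (q : ℝ) * K := mul_pos h.q0 hK
    by_contra hcon
    push Not at hcon
    have h7 : K * (bR K d g + 1) < 0 := mul_neg_of_pos_of_neg hK (by linarith)
    have := mul_neg_of_pos_of_neg h6 h7
    linarith
  have hfa : 1 ≤ ⌊aR K d g⌋ := Int.le_floor.2 (by simpa using ha)
  have hfb : -1 ≤ ⌊bR K d g⌋ := Int.le_floor.2 (by simpa using hb)
  have hsub : B ⊆ Icc (-⌊bR K d g⌋) ⌊aR K d g⌋ := by
    intro c hc
    rw [mem_Icc]
    obtain ⟨-, h1 | h1⟩ := hB c hc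
    · obtain ⟨h2, h3⟩ := h1
      simp only [Int.cast_natCast] at h2 h3
      exact ⟨by omega, Int.le_floor.2 h3⟩
    · obtain ⟨h2, h3⟩ := h1
      simp only [Int.cast_natCast] at h2 h3
      have h4 : -c ≤ ⌊bR K d g⌋ := Int.le_floor.2 (by push_cast; exact h3)
      exact ⟨by omega, by omega⟩
  have h1 := card_le_card hsub
  rw [Int.card_Icc] at h1
  unfold cnt
  omega

/-- emptiness without the apex -/
theorem Emp_Fb (h : Num q s n K) (hX : rr K * (2 * d + 3) < (n : ℝ) * (2 * m + 1)) :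
    Emp (fun _ : Fin n => m) (Fb q K d) := by
  refine Emp_S2 h (Emp_of_rows (fun p hp => hp.1) ?_)
  intro j B hB
  simp only [sum_const, card_univ, Fintype.card_fin, smul_eq_mul]
  rcases card_S2 h j B hB with h1 | h1
  · rw [h1]; exact Nat.zero_le _
  · have h2 := h1.trans (h.cnt_le hX j)
    rcases Nat.lt_or_ge m j with h3 | h3
    · have h4 : (m : ℤ) - j < 0 := by omega
      have h5 : (0 : ℤ) < n := by
        have h6 := h.rr_sq
        have h7 := h.rr3
        have : (0 : ℝ) < n := by rw [← h6]; positivity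
        exact_mod_cast this
      have := mul_neg_of_pos_of_neg h5 h4
      omega
    · have e : ((m - j : ℕ) : ℤ) = m - j := by omega
      have : (B.card : ℤ) ≤ ((n * (m - j) : ℕ) : ℤ) := by
        push_cast [e]
        exact h2
      exact_mod_cast this

/-- independence above the threshold -/
theorem Sur_Fb' (h : Num q s n K) (hX : (n : ℝ) * (2 * m + 1) ≤ rr K * (2 * d + 3)) :
    Sur (fun _ : Fin n => m) (Fb q K d) :=
  Sur_Fb h fun g _ => h.cnt_ge hX g

theorem Fb_subset : Fb q K d ⊆ Fa q K d := fun _ hp => Or.inl hp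

theorem Fa_eq (h3 : ¬ 3 ∣ d) : Fa q K d = Fb q K d := by
  ext p
  constructor
  · rintro (hp | hp)
    · exact hp
    · exact absurd hp.1 h3
  · exact fun hp => Or.inl hp

end Pool.Agent.TH864.SX
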